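import Pool.Agent.P.MP_f30597_gt.Asm
import Pool.Agent.P.MP_f30597_gt.SOF
import Pool.Agent.P.MP_f30597_gt.DP
import Pool.Agent.P.MP_f30597_gt.MEAS3
import Pool.Agent.P.MP_f30597_gt.CORE
import Pool.Agent.P.MP_f30597_gt.FIN2
import Pool.Agent.P.MP_f30597_gt.PAT
import Pool.Agent.P.MP_f30597_gt.LAB
import Pool.Agent.P.MP_f30597_gt.REP
import Pool.Agent.P.MP_f30597_gt.THETA

/-! The L2-torsion of a sofic group of type FL with an infinite amenable normal subgroup is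
defined and vanishes. -/

namespace Pool.Agent.Results.MP_f30597_gt.AmenableNormal

open Pool.Agent.P.MP_f30597_gt

theorem result (G : Type) [Group G] (hG : IsSofic G) (A : Subgroup G) (hA : IsAmenable A)
    (hN : ∀ T : Finset G, {a : G | ∀ t ∈ T, t⁻¹ * a * t ∈ A}.Infinite)
    (ι : Type) [Fintype ι] (deg : ι → ℕ) (c : Matrix ι ι (ZG G)) (w : ι → ℤ)
    (hc : IsResolution deg c w) (n : ℕ) (hn : ∀ a, deg a ≤ n)
    (H : ℕ → Type) [∀ p, NormedAddCommGroup (H p)] [∀ p, InnerProductSpace ℂ (H p)]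
    [∀ p, CompleteSpace (H p)] (b : ∀ p, HilbertBasis (G × {a // deg a = p}) ℂ (H p))
    (D : ∀ p q, H p →L[ℂ] H q)
    (hD : ∀ p q, IsRightMul (b p) (b q) (c.submatrix Subtype.val Subtype.val) (D p q)) :
    IsDetClass b D ∧ (∀ p, l2Betti b D p = 0) ∧ IsL2Torsion b D n 0 := by
  classical
  obtain ⟨S⟩ := t_SOF G hG
  exact ⟨asm_det hD S, asm_zero hD (t_FIN2 t_MOM t_DP t_LIM t_MEAS t_MEAS3 t_CORE) deg S hn
    hc.graded hc.sq (t_THETA t_PAT t_LAB t_REP G ι S deg c w A hc hA hN)⟩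

end Pool.Agent.Results.MP_f30597_gt.AmenableNormal
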