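import Pool.Agent.P.MP_f30597_gt.SOF
import Pool.Agent.P.MP_f30597_gt.DP
import Pool.Agent.P.MP_f30597_gt.MEAS3
import Pool.Agent.P.MP_f30597_gt.CORE
import Pool.Agent.P.MP_f30597_gt.FIN2
import Pool.Agent.P.MP_f30597_gt.LAB
import Pool.Agent.P.MP_f30597_gt.REP
import Pool.Agent.P.MP_f30597_gt.THETA
import Pool.Agent.P.MP_f30597_gt.CP.Main

/-! The L2-invariants of a closed convex projective manifold of simplicial volume zero vanish. -/

namespace Pool.Agent.Results.MP_f30597_gt.ConvexProjective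

open Pool.Agent.P.MP_f30597_gt Pool.Agent.P.MP_f30597_gt.CP

theorem result (n : ℕ) (hn0 : 1 ≤ n) (C : Set (Fin (n + 1) → ℝ))
    (G : Subgroup (Matrix.SpecialLinearGroup (Fin (n + 1)) ℝ)) (hC : Divides C G)
    (ι : Type) [Fintype ι] (deg : ι → ℕ) (c : Matrix ι ι (ZG G)) (w w' : ι → ℤ)
    (hc : IsResolution deg c w) (hn : ∀ a, deg a ≤ n)
    (hc' : IsResolution (fun a => n - deg a) (cst c) w')
    (hV : SimplicialVolumeZero G n)
    (H : ℕ → Type) [∀ p, NormedAddCommGroup (H p)] [∀ p, InnerProductSpace ℂ (H p)]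
    [∀ p, CompleteSpace (H p)] (b : ∀ p, HilbertBasis (G × {a // deg a = p}) ℂ (H p))
    (D : ∀ p q, H p →L[ℂ] H q)
    (hD : ∀ p q, IsRightMul (b p) (b q) (c.submatrix Subtype.val Subtype.val) (D p q)) :
    IsDetClass b D ∧ (∀ p, l2Betti b D p = 0) ∧ IsL2Torsion b D n 0 := by
  classical
  obtain ⟨A, hA, hN⟩ := normal_abelian hn0 hC.st hc hn hc' hV
  obtain ⟨S⟩ := t_SOF G (p_SOFIC _ G _ hC.st.inj)
  exact ⟨asm_det hD S, asm_zero hD (t_FIN2 t_MOM t_DP t_LIM t_MEAS t_MEAS3 t_CORE) deg S hn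
    hc.graded hc.sq (t_THETA t_PAT t_LAB t_REP G ι S deg c w A hc hA hN)⟩

end Pool.Agent.Results.MP_f30597_gt.ConvexProjective
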