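import Pool.Agent.P.MP_f30597_gt.SOF
import Pool.Agent.P.MP_f30597_gt.DV.Main

/-! A Davis manifold of simplicial volume zero is of determinant class and its L2-Betti numbers
vanish; in even dimension so does its L2-torsion. -/

namespace Pool.Agent.Results.MP_f30597_gt.DavisManifold

open Pool.Agent.P.MP_f30597_gt Pool.Agent.P.MP_f30597_gt.CP Pool.Agent.P.MP_f30597_gt.DV

theorem result (n : ℕ) (hn0 : 1 ≤ n) (r : ℕ) (K : SimpleGraph (Fin r))
    (hK : K.CliqueFree (n + 1)) (a : List (Fin r) →₀ ℤ) (ha : IsTopCycle K n a)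
    (G : Subgroup (RAC K)) (hG : G.FiniteIndex) (htf : ∀ g ∈ G, IsOfFinOrder g → g = 1)
    (hor : ∀ g ∈ G, sgnW K g = 1)
    (ι : Type) [Fintype ι] (deg : ι → ℕ) (c : Matrix ι ι (ZG G)) (w w' : ι → ℤ)
    (hc : IsResolution deg c w) (hn : ∀ a, deg a ≤ n)
    (hc' : IsResolution (fun a => n - deg a) (cst c) w')
    (hV : SimplicialVolumeZero G n)
    (H : ℕ → Type) [∀ p, NormedAddCommGroup (H p)] [∀ p, InnerProductSpace ℂ (H p)]
    [∀ p, CompleteSpace (H p)] (b : ∀ p, HilbertBasis (G × {a // deg a = p}) ℂ (H p))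
    (D : ∀ p q, H p →L[ℂ] H q)
    (hD : ∀ p q, IsRightMul (b p) (b q) (c.submatrix Subtype.val Subtype.val) (D p q)) :
    IsDetClass b D ∧ (∀ p, l2Betti b D p = 0) ∧ (Even n → IsL2Torsion b D n 0) := by
  classical
  obtain ⟨S⟩ := t_SOF G (p_SOFW p_REP r K G)
  have hb := betti_zero S hc hn hn0 hc' (stab r K G).1
    (kq r K n a G hn0 hK ha hG htf hor hV) hD
  exact ⟨asm_det hD S, hb, fun he => torsion_zero S hc hn he hc' hD hb⟩

end Pool.Agent.Results.MP_f30597_gt.DavisManifold
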