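import Pool.Agent.P.MP_f30597_gt.SOF
import Pool.Agent.P.MP_f30597_gt.DP
import Pool.Agent.P.MP_f30597_gt.MEAS3
import Pool.Agent.P.MP_f30597_gt.CORE
import Pool.Agent.P.MP_f30597_gt.FIN2
import Pool.Agent.P.MP_f30597_gt.SV.All

/-! The L2-Betti numbers of a Poincare duality group, and for sofic groups the L2-torsion, are
bounded by the stable smoothing volume. -/

namespace Pool.Agent.Results.MP_f30597_gt.SmoothingVolume

open Pool.Agent.P.MP_f30597_gt Pool.Agent.P.MP_f30597_gt.SV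

theorem result (n : ℕ) (hn0 : 1 ≤ n) (A : ℝ) : ∃ C : ℝ, ∀ (G : Type) [Group G] [Countable G],
    (∀ g : G, IsOfFinOrder g → g = 1) →
    ∀ (ι : Type) [Fintype ι] (deg : ι → ℕ) (c : Matrix ι ι (ZG G)) (w w' : ι → ℤ),
      IsResolution deg c w → (∀ a, deg a ≤ n) → IsResolution (fun a => n - deg a) (cst c) w' →
    ∀ (H : ℕ → Type) [∀ p, NormedAddCommGroup (H p)] [∀ p, InnerProductSpace ℂ (H p)]
      [∀ p, CompleteSpace (H p)] (b : ∀ p, HilbertBasis (G × {a // deg a = p}) ℂ (H p))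
      (D : ∀ p q, H p →L[ℂ] H q),
      (∀ p q, IsRightMul (b p) (b q) (c.submatrix Subtype.val Subtype.val) (D p q)) →
    ∀ V : ℝ, SmoothVolLe G n A V →
      (∀ p, |l2Betti b D p| ≤ C * V) ∧ (IsSofic G → IsDetClass b D ∧
        ((∀ p, l2Betti b D p = 0) → ∃ ρ, IsL2Torsion b D n ρ ∧ |ρ| ≤ C * V)) := by
  classical
  obtain ⟨C, h⟩ := main (t_FIN2 t_MOM t_DP t_LIM t_MEAS t_MEAS3 t_CORE) n hn0 A
  refine ⟨C, fun G _ _ hG ι _ deg c w w' R hn R' H _ _ _ b D hD V hV => ?_⟩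
  obtain ⟨μ, B, hμ⟩ := asm_spec hD R.graded
  obtain ⟨h0, h1⟩ := h G ι deg c w w' μ B V hG R hn R' (fun p => (hμ p).2.1) hV
  refine ⟨fun p => ?_, fun hS => ?_⟩
  · rw [(hμ p).1, abs_of_nonneg MeasureTheory.measureReal_nonneg]
    exact h0 p
  · obtain ⟨S⟩ := t_SOF G hS
    refine ⟨asm_det hD S, fun e => ⟨_, ⟨μ, fun p => (hμ p).2.2 ((h1 S).1 p), rfl⟩, ?_⟩⟩
    have := (h1 S).2 fun p => (hμ p).1.symm.trans (e p)
    rw [abs_mul]
    exact (mul_le_of_le_one_left (abs_nonneg _) (by norm_num [abs_of_pos])).trans this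

end Pool.Agent.Results.MP_f30597_gt.SmoothingVolume
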